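import Pool.Agent.H33.G.R_seed8.W262.RK.Stm

/-!
Bilinear sums of Jacobi symbols: preliminaries (moments of the divisor function, power mean).
-/

set_option autoImplicit false

namespace W37.RK
open Finset

theorem card_div_mul_le (a b : ℕ) :
    (a * b).divisors.card ≤ a.divisors.card * b.divisors.card := by
  rw [Nat.divisors_mul]
  exact Finset.card_mul_le

theorem harm_le (Y : ℕ) : ∑ n ∈ Icc 1 Y, 1 / (n : ℝ) ≤ 1 + Real.log Y := by
  have h := harmonic_le_one_add_log Y
  rw [harmonic_eq_sum_Icc] at h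
  push_cast at h
  simpa [one_div] using h

theorem sum_antidiag_le (Y : ℕ) (f : ℕ × ℕ → ℝ) (hf : ∀ i, 0 ≤ f i) :
    ∑ n ∈ Icc 1 Y, ∑ i ∈ n.divisorsAntidiagonal, f i ≤ ∑ i ∈ Icc 1 Y ×ˢ Icc 1 Y, f i := by
  calc ∑ n ∈ Icc 1 Y, ∑ i ∈ n.divisorsAntidiagonal, f i
      ≤ ∑ n ∈ Icc 1 Y, ∑ i ∈ (Icc 1 Y ×ˢ Icc 1 Y).filter (fun i => i.1 * i.2 = n), f i := by
        refine sum_le_sum fun n hn => ?_
        refine sum_le_sum_of_subset_of_nonneg ?_ fun i _ _ => hf i
        intro i hi
        rw [Nat.mem_divisorsAntidiagonal] at hi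
        rw [mem_Icc] at hn
        rw [mem_filter, mem_product, mem_Icc, mem_Icc]
        have h1 : i.1 ≠ 0 := by rintro h; rw [h] at hi; omega
        have h2 : i.2 ≠ 0 := by rintro h; rw [h] at hi; omega
        have h3 : i.1 ≤ n := by rw [← hi.1]; exact Nat.le_mul_of_pos_right _ (by omega)
        have h4 : i.2 ≤ n := by rw [← hi.1]; exact Nat.le_mul_of_pos_left _ (by omega)
        exact ⟨⟨⟨by omega, by omega⟩, ⟨by omega, by omega⟩⟩, hi.1⟩
    _ = ∑ i ∈ Icc 1 Y ×ˢ Icc 1 Y, ∑ n ∈ Icc 1 Y, if i.1 * i.2 = n then f i else 0 := by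
        rw [sum_comm]
        refine sum_congr rfl fun n _ => ?_
        rw [sum_filter]
    _ ≤ ∑ i ∈ Icc 1 Y ×ˢ Icc 1 Y, f i := by
        refine sum_le_sum fun i _ => ?_
        rw [sum_ite_eq]
        split_ifs
        · exact le_rfl
        · exact hf i

/-- sums of powers of the divisor function over `n` -/
theorem sum_card_pow_div (k Y : ℕ) :
    ∑ n ∈ Icc 1 Y, (n.divisors.card : ℝ) ^ k / n ≤ (1 + Real.log Y) ^ (2 ^ k) := by
  induction k with
  | zero =>
    simp only [pow_zero, pow_one]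
    exact harm_le Y
  | succ k ih =>
    have h0 : 0 ≤ ∑ n ∈ Icc 1 Y, (n.divisors.card : ℝ) ^ k / n :=
      sum_nonneg fun _ _ => by positivity
    have h1 : ∑ n ∈ Icc 1 Y, (n.divisors.card : ℝ) ^ (k + 1) / n ≤
        ∑ i ∈ Icc 1 Y ×ˢ Icc 1 Y,
          ((i.1.divisors.card : ℝ) ^ k / i.1) * ((i.2.divisors.card : ℝ) ^ k / i.2) := by
      refine le_trans ?_ (sum_antidiag_le Y
        (fun i => ((i.1.divisors.card : ℝ) ^ k / i.1) * ((i.2.divisors.card : ℝ) ^ k / i.2))
        (fun i => by positivity))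
      apply sum_le_sum
      intro n hn
      rw [mem_Icc] at hn
      have : ∀ i ∈ n.divisorsAntidiagonal, (n.divisors.card : ℝ) ^ k / n ≤
          ((i.1.divisors.card : ℝ) ^ k / i.1) * ((i.2.divisors.card : ℝ) ^ k / i.2) := by
        intro i hi
        rw [Nat.mem_divisorsAntidiagonal] at hi
        rw [← hi.1, div_mul_div_comm, ← mul_pow]
        push_cast
        apply div_le_div_of_nonneg_right _ (by positivity)
        apply pow_le_pow_left₀ (by positivity)
        exact_mod_cast card_div_mul_le i.1 i.2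
      calc (n.divisors.card : ℝ) ^ (k + 1) / n =
          ∑ i ∈ n.divisorsAntidiagonal, (n.divisors.card : ℝ) ^ k / n := by
            rw [sum_const, nsmul_eq_mul, ← Nat.map_div_right_divisors, card_map]
            ring
        _ ≤ _ := sum_le_sum this
    refine h1.trans ?_
    rw [sum_product]
    simp_rw [← mul_sum]
    rw [← sum_mul]
    calc _ ≤ (1 + Real.log Y) ^ (2 ^ k) * (1 + Real.log Y) ^ (2 ^ k) :=
          mul_le_mul ih ih h0 (h0.trans ih)
      _ = _ := by rw [← pow_add, ← two_mul, pow_succ, mul_comm 2]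

theorem sum_card_pow (k Y : ℕ) :
    ∑ n ∈ Icc 1 Y, (n.divisors.card : ℝ) ^ k ≤ Y * (1 + Real.log Y) ^ (2 ^ k) := by
  calc ∑ n ∈ Icc 1 Y, (n.divisors.card : ℝ) ^ k
      ≤ ∑ n ∈ Icc 1 Y, Y * ((n.divisors.card : ℝ) ^ k / n) := by
        refine sum_le_sum fun n hn => ?_
        rw [mem_Icc] at hn
        have h1 : (0 : ℝ) < n := by exact_mod_cast hn.1
        have h2 : (n : ℝ) ≤ Y := by exact_mod_cast hn.2
        rw [mul_div_assoc', le_div_iff₀ h1, mul_comm]
        exact mul_le_mul_of_nonneg_right h2 (by positivity)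
    _ ≤ _ := by
        rw [← mul_sum]
        exact mul_le_mul_of_nonneg_left (sum_card_pow_div k Y) (by positivity)

/-- number of representations as a product of three factors -/
theorem card_rep3 (s : Finset ℕ) (l : ℕ) (hs : ∀ n ∈ s, 0 < n) :
    (((s ×ˢ s ×ˢ s).filter (fun t => t.1 * t.2.1 * t.2.2 = l)).card : ℝ) ≤
      (l.divisors.card : ℝ) ^ 2 := by
  have h : ((s ×ˢ s ×ˢ s).filter (fun t => t.1 * t.2.1 * t.2.2 = l)).card ≤
      (l.divisors ×ˢ l.divisors).card := by
    apply card_le_card_of_injOn (fun t => (t.1, t.2.1))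
    · intro t ht
      simp only [coe_filter, mem_product, Set.mem_setOf_eq] at ht
      obtain ⟨⟨h1, h2, h3⟩, h4⟩ := ht
      have hl : l ≠ 0 := by
        rw [← h4]
        have := hs _ h1; have := hs _ h2; have := hs _ h3
        positivity
      simp only [coe_product, Set.mem_prod, mem_coe, Nat.mem_divisors]
      refine ⟨⟨?_, hl⟩, ⟨?_, hl⟩⟩
      · rw [← h4, mul_assoc]; exact Dvd.intro _ rfl
      · rw [← h4, mul_comm t.1, mul_assoc]; exact Dvd.intro _ rfl
    · intro t ht u hu htu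
      simp only [coe_filter, mem_product, Set.mem_setOf_eq] at ht hu
      simp only [Prod.mk.injEq] at htu
      have h1 := hs _ ht.1.1
      have h2 := hs _ ht.1.2.1
      have h3 : t.2.2 = u.2.2 := by
        have h4 : t.1 * t.2.1 * t.2.2 = t.1 * t.2.1 * u.2.2 := by
          rw [ht.2, htu.1, htu.2, hu.2]
        exact Nat.eq_of_mul_eq_mul_left (by positivity) h4
      ext
      · exact htu.1
      · exact htu.2
      · exact h3
  rw [card_product] at h
  have h' : (((s ×ˢ s ×ˢ s).filter (fun t => t.1 * t.2.1 * t.2.2 = l)).card : ℝ) ≤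
      ((l.divisors.card * l.divisors.card : ℕ) : ℝ) := by exact_mod_cast h
  rw [pow_two]
  exact_mod_cast h'

end W37.RK
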